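import Pool.Agent.Lib.MP_db622c_co.P7.Fin

/-!
# MP_db622c_co: complete balanced Howell rotations on `2 ^ e * n` partnerships, `n` any Hadamard order

`HasCBHR N` (in `Pool.Agent.Lib.MP_db622c_co.Defs`) says that `N` is a positive multiple of `4`
and that there is a complete balanced Howell rotation on `N` partnerships and `N - 1` boards.
-/

namespace Pool.Agent.Results.MP_db622c_co.HadamardOrders

open Pool.Agent.Lib.MP_db622c_co

/-- If there is a Hadamard matrix of order `n ≥ 2`, then there is a complete balanced Howell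
rotation on `2 ^ e * n` partnerships for every `e` with `2 ^ e ≥ 2 ^ 151 * (log₂ n) ^ 6`. -/
theorem result : ∀ n : ℕ, 2 ≤ n →
    (∃ H : Matrix (Fin n) (Fin n) ℤ, (∀ i j, H i j = 1 ∨ H i j = -1) ∧
      H * H.transpose = (n : ℤ) • (1 : Matrix (Fin n) (Fin n) ℤ)) →
    ∀ e : ℕ, 2 ^ 151 * (Nat.log 2 n) ^ 6 ≤ 2 ^ e → HasCBHR (2 ^ e * n) := by
  rintro n hn ⟨H, h1, h2⟩ e he
  have : Nonempty (Fin n) := ⟨⟨0, by omega⟩⟩
  have h3 := CB.hasHad_of_isHad (ι := Fin n) (H := H) ⟨h1, by rw [Fintype.card_fin]; exact h2⟩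
  rw [Fintype.card_fin] at h3
  exact P7.hasCBHR_had n e hn h3 he

/-- Together with the known orders `2 ^ a * m` of Hadamard matrices: for every `m ≥ 1` there is a
complete balanced Howell rotation on `2 ^ t * m` partnerships for every `t` with
`2 ^ t ≥ 2 ^ 163 * m ^ 3 * (log₂ m + 1) ^ 6`. -/
theorem all_multiples (m : ℕ) (hm : 1 ≤ m) (t : ℕ)
    (ht : 2 ^ 163 * m ^ 3 * (Nat.log 2 m + 1) ^ 6 ≤ 2 ^ t) : HasCBHR (2 ^ t * m) :=
  P7.hasCBHR_log m t hm ht

/-- For every `m ≥ 1` there are infinitely many `t` as in `all_multiples` for which neither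
`n - 1` nor `n / 2 - 1` is a prime power, `n = 2 ^ t * m`. -/
theorem infinitely_many_new (m : ℕ) (hm : 1 ≤ m) (t0 : ℕ) :
    ∃ t : ℕ, t0 ≤ t ∧ 2 ^ 163 * m ^ 3 * (Nat.log 2 m + 1) ^ 6 ≤ 2 ^ t ∧
      ¬ IsPrimePow (2 ^ t * m - 1) ∧ ¬ IsPrimePow (2 ^ t * m / 2 - 1) := by
  obtain ⟨t, ht, h1, h2⟩ := CB.exists_not_primePow m hm
    (t0 + 2 ^ 163 * m ^ 3 * (Nat.log 2 m + 1) ^ 6 + 1)
  refine ⟨t, by omega, ?_, h1, ?_⟩
  · have h3 : t < 2 ^ t := Nat.lt_two_pow_self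
    omega
  · have h4 : 2 ^ t * m / 2 = 2 ^ (t - 1) * m := by
      obtain ⟨f, rfl⟩ : ∃ f, t = f + 1 := ⟨t - 1, by omega⟩
      rw [pow_succ, mul_assoc, mul_comm 2 m, ← mul_assoc, Nat.mul_div_cancel _ (by norm_num),
        Nat.add_sub_cancel]
    rw [h4]
    exact h2

end Pool.Agent.Results.MP_db622c_co.HadamardOrders
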