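import Pool.Agent.Lib.MP_db622c_co.PU.Main

/-!
# MP_db622c_co: complete balanced Howell rotations on products of Paley orders

`HasCBHR n` (in `Pool.Agent.Lib.MP_db622c_co.Defs`) says that `n` is a positive multiple of `4`
and that there is a complete balanced Howell rotation on `n` partnerships and `n - 1` boards.
-/

namespace Pool.Agent.Results.MP_db622c_co.PaleyProducts

open Pool.Agent.Lib.MP_db622c_co

/-- Let `q_1, ..., q_k` (the list `qs`) be prime powers `≡ 3 (mod 4)`, `q_i ≥ 7`, let `P` be the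
product of a list `ps` of members of `{12, 20, 24, 28, 44, 48, 60, 68}`, and put
`N = 2 ^ e * (q_1 + 1) * ... * (q_k + 1) * P`.
There is a complete balanced Howell rotation on `N` partnerships whenever `k ≥ 2` and
`e ≥ 4 k - 5`, and for `k ≤ 1` whenever `e ≥ 3`, or `e = 0` and the list `ps` is not empty. -/
theorem result : ∀ (qs ps : List ℕ) (e : ℕ),
    (∀ q ∈ qs, IsPrimePow q ∧ q % 4 = 3 ∧ 7 ≤ q) →
    (∀ m ∈ ps, m ∈ [12, 20, 24, 28, 44, 48, 60, 68]) →
    ((2 ≤ qs.length ∧ 4 * qs.length ≤ e + 5) ∨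
      (qs.length ≤ 1 ∧ (3 ≤ e ∨ (e = 0 ∧ ps ≠ [])))) →
    HasCBHR (2 ^ e * (qs.map (fun q => q + 1)).prod * ps.prod) :=
  fun qs ps e hq hp he => PU.hasCBHR_all qs hq ps hp e he

/-- If `N` (as in `result`) has an odd prime factor, then for infinitely many primes
`q ≡ 3 (mod 4)` the number `(q + 1) * N` is not of the form `2 ^ j * (q' + 1)` with `q'` an odd
prime power. -/
theorem new_orders : ∀ (qs ps : List ℕ) (e : ℕ),
    (∀ m ∈ ps, m ∈ [12, 20, 24, 28, 44, 48, 60, 68]) →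
    (∃ s : ℕ, s.Prime ∧ s ≠ 2 ∧ s ∣ 2 ^ e * (qs.map (fun q => q + 1)).prod * ps.prod) →
    ∀ B : ℕ, ∃ q : ℕ, B < q ∧ q.Prime ∧ q % 4 = 3 ∧
      ∀ j q' : ℕ, IsPrimePow q' → q' % 2 = 1 →
        (q + 1) * (2 ^ e * (qs.map (fun q => q + 1)).prod * ps.prod) ≠ 2 ^ j * (q' + 1) :=
  fun qs ps e hp hs B => PU.exists_new_all qs ps hp e hs B

end Pool.Agent.Results.MP_db622c_co.PaleyProducts
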