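import Pool.Agent.Lib.MP_db622c_co.P5.Fin
import Pool.Agent.Lib.MP_db622c_co.P5.Nov

/-!
# MP_db622c_co: complete balanced Howell rotations on `2 ^ e * (q + 1)` partnerships,
`q ≡ 1 (mod 4)` a prime power

`HasCBHR n` (in `Pool.Agent.Lib.MP_db622c_co.Defs`) says that `n` is a positive multiple of `4`
and that there is a complete balanced Howell rotation on `n` partnerships and `n - 1` boards.
-/

namespace Pool.Agent.Results.MP_db622c_co.PrimePowerOneModFour

open Pool.Agent.Lib.MP_db622c_co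

/-- For every prime power `q ≡ 1 (mod 4)` and every `e ≥ 3` there is a complete balanced Howell
rotation on `n = 2 ^ e * (q + 1)` partnerships. -/
theorem result : ∀ q : ℕ, IsPrimePow q → q % 4 = 1 →
    ∀ e : ℕ, 3 ≤ e → HasCBHR (2 ^ e * (q + 1)) :=
  fun q hq h4 e he => P5.hasCBHR_one q e hq h4 he

/-- For every `e` there are infinitely many primes `q ≡ 1 (mod 4)` for which none of `n - 1`,
`n / 2 - 1`, ..., `n / 2 ^ (e - 1) - 1` is a prime power, `n = 2 ^ e * (q + 1)`
(`n / 2 ^ j = 2 ^ (e - j) * (q + 1)`). -/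
theorem infinitely_many_new (e : ℕ) (N : ℕ) :
    ∃ q : ℕ, N < q ∧ q.Prime ∧ q % 4 = 1 ∧
      ∀ j : ℕ, j < e → ¬ IsPrimePow (2 ^ (e - j) * (q + 1) - 1) := by
  obtain ⟨q, hN, hq, h4, h⟩ := P5.exists_prime_outside e N
  exact ⟨q, hN, hq, h4, fun j hj => h (e - j) (by omega) (by omega)⟩

end Pool.Agent.Results.MP_db622c_co.PrimePowerOneModFour
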