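import Pool.Agent.Lib.MP_db622c_co.CB.Fin

/-!
# MP_db622c_co: complete balanced Howell rotations on `2 ^ e * (q + 1)` partnerships

`HasCBHR n` (in `Pool.Agent.Lib.MP_db622c_co.Defs`) says that `n` is a positive multiple of `4`
and that there is a complete balanced Howell rotation on `n` partnerships and `n - 1` boards.
-/

namespace Pool.Agent.Results.MP_db622c_co.PrimePowerPlusOne

open Pool.Agent.Lib.MP_db622c_co

/-- For every prime power `q ≡ 3 (mod 4)` and every `e ≥ 2` there is a complete balanced Howell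
rotation on `n = 2 ^ e * (q + 1)` partnerships. -/
theorem result : ∀ q : ℕ, IsPrimePow q → q % 4 = 3 →
    ∀ e : ℕ, 2 ≤ e → HasCBHR (2 ^ e * (q + 1)) :=
  fun q hq h3 e he => CB.hasCBHR_paley_all q e hq h3 he

/-- For every `q ≡ 3 (mod 4)` there are infinitely many `e ≥ 2` for which neither `n - 1` nor
`n / 2 - 1` is a prime power, `n = 2 ^ e * (q + 1)`. -/
theorem infinitely_many_new (q : ℕ) (h3 : q % 4 = 3) (e0 : ℕ) :
    ∃ e : ℕ, e0 ≤ e ∧ 2 ≤ e ∧ ¬ IsPrimePow (2 ^ e * (q + 1) - 1) ∧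
      ¬ IsPrimePow (2 ^ e * (q + 1) / 2 - 1) := by
  obtain ⟨e, he, h1, h2⟩ := CB.exists_not_primePow (q + 1) (by omega) (e0 + 2)
  refine ⟨e, by omega, by omega, h1, ?_⟩
  have h4 : 2 ^ e * (q + 1) / 2 = 2 ^ (e - 1) * (q + 1) := by
    obtain ⟨f, rfl⟩ : ∃ f, e = f + 1 := ⟨e - 1, by omega⟩
    rw [pow_succ, mul_assoc, mul_comm 2 (q + 1), ← mul_assoc, Nat.mul_div_cancel _ (by norm_num),
      Nat.add_sub_cancel]
  rw [h4]
  exact h2

end Pool.Agent.Results.MP_db622c_co.PrimePowerPlusOne
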